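import Pool.Agent.W261.QJ.Stm
import Pool.Agent.Helper240.ZFM.ConvA

set_option autoImplicit false
open Filter Topology Set Metric

namespace Pool.Agent.W140.QJ
open Pool.Agent.W261.QJ

/-- critical points are in the filled Julia set -/
theorem crit : S_crit := by
  intro f φ hB hbo c hc
  by_contra hcK
  obtain ⟨a, hE⟩ := hbo.ext
  have hopen : IsOpen {w : ℂ | 1 < ‖w‖} := isOpen_lt continuous_const continuous_norm
  have hcim : c ∈ φ '' {w | 1 < ‖w‖} := by
    rw [hE.image]; exact hcK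
  obtain ⟨w0, hw0, rfl⟩ := hcim
  have hw0' : 1 < ‖w0‖ := hw0
  have hd : 2 ≤ f.natDegree := hB.deg
  have hd0 : f.natDegree ≠ 0 := by omega
  have hpw : w0 ^ f.natDegree ∈ {w : ℂ | 1 < ‖w‖} := by
    show 1 < ‖w0 ^ f.natDegree‖
    rw [norm_pow]
    exact one_lt_pow₀ hw0' hd0
  have h1 := Pool.Agent.Helper405.Conv.deriv_ne_zero_of_injOn hopen hE.diff hE.inj hpw
  have hφ0 : HasDerivAt φ (deriv φ w0) w0 :=
    (hE.diff.differentiableAt (hopen.mem_nhds hw0)).hasDerivAt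
  have hφ1 : HasDerivAt φ (deriv φ (w0 ^ f.natDegree)) (w0 ^ f.natDegree) :=
    (hE.diff.differentiableAt (hopen.mem_nhds hpw)).hasDerivAt
  have hL : HasDerivAt (fun w => f.eval (φ w)) (f.derivative.eval (φ w0) * deriv φ w0) w0 :=
    (f.hasDerivAt (φ w0)).comp w0 hφ0
  have hR : HasDerivAt (fun w => φ (w ^ f.natDegree))
      (deriv φ (w0 ^ f.natDegree) * ((f.natDegree : ℂ) * w0 ^ (f.natDegree - 1))) w0 :=
    HasDerivAt.comp w0 hφ1 (hasDerivAt_pow _ w0)
  have heq : (fun w => f.eval (φ w)) =ᶠ[𝓝 w0] (fun w => φ (w ^ f.natDegree)) := by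
    filter_upwards [hopen.mem_nhds hw0] with w hw
    exact hbo.conj w hw
  have hR' := hR.congr_of_eventuallyEq heq
  have h := hL.unique hR'
  rw [hc, zero_mul] at h
  have hw00 : w0 ≠ 0 := by
    rintro rfl
    rw [norm_zero] at hw0'
    linarith
  have hne : deriv φ (w0 ^ f.natDegree) * ((f.natDegree : ℂ) * w0 ^ (f.natDegree - 1)) ≠ 0 :=
    mul_ne_zero h1 (mul_ne_zero (Nat.cast_ne_zero.mpr hd0) (pow_ne_zero _ hw00))
  exact hne h.symm

end Pool.Agent.W140.QJ
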